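import Pool.Agent.Y234.EM.All
import Pool.Agent.Y960.EM.Redc

/-!
# Project EM: the main theorem
-/

set_option autoImplicit false

namespace Pool.Agent.Y234.EM

theorem main_ (k : Type) [Field k] [IsAlgClosed k] (v : ℕ)
    (J : Ideal (MvPolynomial (Fin v) k)) [Module.Finite k (MvPolynomial (Fin v) k ⧸ J)] :
    ∃ e, PP J e ∧ e ≤ v.factorial * dg J :=
  main_of Pool.Agent.Y960.EM.redc k v J

end Pool.Agent.Y234.EM
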