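import Pool.Agent.H826R3.SM.QOne

/-!
# Project EM: finite schemes of fixed embedding dimension and their adic neighbourhoods

`S = k[x_1, .., x_v]`, `mm` is the ideal of the origin, `dg J = dim S / J`.
A polynomial map `f` is called monic of degree `M` (`Mo M f`) if `f i = g i + x_i ^ M` with `g i` of
total degree `< M`.
-/

set_option autoImplicit false

namespace Pool.Agent.Y234.EM

open Filter Topology Pool.Agent.H826R3.SM

/-- The ideal generated by a finite family. -/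
abbrev qq {R : Type} [CommRing R] {v : ℕ} (f : Fin v → R) : Ideal R :=
  Ideal.span (Set.range f)

/-- The ideal of the origin. -/
noncomputable abbrev mm (R : Type) [CommRing R] (v : ℕ) : Ideal (MvPolynomial (Fin v) R) :=
  Ideal.span (Set.range MvPolynomial.X)

/-- The dimension of `S / J`. -/
noncomputable abbrev dg {k : Type} [Field k] {v : ℕ} (J : Ideal (MvPolynomial (Fin v) k)) : ℕ :=
  Module.finrank k (MvPolynomial (Fin v) k ⧸ J)

/-- `f i = g i + x_i ^ M` with `g i` of total degree less than `M`. -/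
def Mo {R : Type} [CommRing R] {v : ℕ} (M : ℕ) (f : Fin v → MvPolynomial (Fin v) R) : Prop :=
  1 ≤ M ∧ ∀ i, ∃ g : MvPolynomial (Fin v) R, g.totalDegree < M ∧ f i = g + MvPolynomial.X i ^ M

/-- The number of monomials of degree less than `N` in `v` variables (for `1 ≤ N`). -/
abbrev cn (N v : ℕ) : ℕ := (N + v - 1).choose v

/-! ## Lech's inequality (elementary version), growth -/

/-- LECH. -/
def S_LECH : Prop :=
  ∀ (k : Type) [Field k] (v : ℕ) (J : Ideal (MvPolynomial (Fin v) k))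
    [Module.Finite k (MvPolynomial (Fin v) k ⧸ J)] (n : ℕ),
    Module.Finite k (MvPolynomial (Fin v) k ⧸ J ^ n) ∧ dg (J ^ n) ≤ n ^ v * dg J

/-- ARI. -/
def S_ARI : Prop :=
  ∀ v e d N0 : ℕ, (∀ n, 1 ≤ n → e * cn n v ≤ (n + N0) ^ v * d) → e ≤ v.factorial * d

/-- LIM. -/
def S_LIM : Prop :=
  ∀ (v e N0 : ℕ) (D : ℕ → ℕ), 1 ≤ e → (∀ N, 1 ≤ N → e * cn N v ≤ D (N + N0)) →
    (∀ N, 1 ≤ N → D N ≤ e * cn N v) →
    Tendsto (fun N : ℕ => (D N : ℝ) / ((e : ℝ) * (cn N v : ℝ))) atTop (𝓝 1)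

/-! ## Reductions -/

/-- REDA: more than `v` elements of an `mm`-primary ideal satisfy a relation in the fibre cone. -/
def S_REDA : Prop :=
  ∀ (k : Type) [Field k] (v c : ℕ) (J : Ideal (MvPolynomial (Fin v) k)), mm k v ^ c ≤ J →
    J ≤ mm k v → ∀ (D : ℕ) (g : Fin D → MvPolynomial (Fin v) k), (∀ l, g l ∈ J) → v < D →
    ∃ (n : ℕ) (G : MvPolynomial (Fin D) k), G ≠ 0 ∧ G.IsHomogeneous n ∧
      MvPolynomial.aeval g G ∈ mm k v * J ^ n

/-- REDB: `v` elements generate a reduction. -/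
def S_REDB : Prop :=
  ∀ (k : Type) [Field k] [Infinite k] (v c : ℕ) (J : Ideal (MvPolynomial (Fin v) k)),
    mm k v ^ c ≤ J → J ≤ mm k v → ∃ f : Fin v → MvPolynomial (Fin v) k, (∀ i, f i ∈ J) ∧
      ∃ N : ℕ, J ^ (N + 1) ≤ qq f * J ^ N ⊔ mm k v * J ^ (N + 1)

/-- REDC: a reduction by a monic map. -/
def S_REDC : Prop :=
  ∀ (k : Type) [Field k] (v c : ℕ) (J : Ideal (MvPolynomial (Fin v) k))
    (f : Fin v → MvPolynomial (Fin v) k) (N : ℕ), mm k v ^ c ≤ J → J ≤ mm k v →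
    (∀ i, f i ∈ J) → J ^ (N + 1) ≤ qq f * J ^ N ⊔ mm k v * J ^ (N + 1) →
    ∃ (M : ℕ) (f' : Fin v → MvPolynomial (Fin v) k), Mo M f' ∧ (M : k) ≠ 0 ∧ (∀ i, f' i ∈ J) ∧
      ∀ K n : ℕ, J ^ (N + n) ≤ qq f' ^ n ⊔ mm k v ^ K

/-! ## Monic maps are free -/

/-- BAS: `k[x]` is free over `k[f]` with basis the monomials `x ^ a`, `a i < M`. -/
def S_BAS : Prop :=
  ∀ (R : Type) [CommRing R] (v M : ℕ) (f : Fin v → MvPolynomial (Fin v) R), Mo M f →
    ∀ G : MvPolynomial (Fin v) R, ∃! H : (Fin v → Fin M) → MvPolynomial (Fin v) R,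
      G = ∑ a : Fin v → Fin M, MvPolynomial.aeval f (H a) * ∏ i, MvPolynomial.X i ^ (a i : ℕ)

/-- QP: the powers of the ideal of `f`. -/
def S_QP : Prop :=
  (∀ (R : Type) [CommRing R] (v M n : ℕ) (f : Fin v → MvPolynomial (Fin v) R), Mo M f →
    ∀ H : (Fin v → Fin M) → MvPolynomial (Fin v) R,
      ∑ a : Fin v → Fin M, MvPolynomial.aeval f (H a) * ∏ i, MvPolynomial.X i ^ (a i : ℕ) ∈
        qq f ^ n ↔ ∀ a, H a ∈ mm R v ^ n) ∧
  ∀ (k : Type) [Field k] (v M n : ℕ) (f : Fin v → MvPolynomial (Fin v) k), Mo M f → 1 ≤ n →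
    Module.Finite k (MvPolynomial (Fin v) k ⧸ qq f ^ n) ∧ dg (qq f ^ n) = cn n v * M ^ v

/-- MULT: the lengths at the origin. -/
def S_MULT : Prop :=
  ∀ (k : Type) [Field k] (v M n : ℕ) (f : Fin v → MvPolynomial (Fin v) k), Mo M f → 1 ≤ n →
    ∃ L0 : ℕ, ∀ L : ℕ, L0 ≤ L → dg (qq f ^ n ⊔ mm k v ^ L) = dg (qq f ⊔ mm k v ^ L) * cn n v

/-! ## Generic fibres -/

/-- GENA: the Jacobian determinant of a monic map is not zero. -/
def S_GENA : Prop :=
  ∀ (k : Type) [Field k] (v M : ℕ) (f : Fin v → MvPolynomial (Fin v) k), Mo M f → (M : k) ≠ 0 →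
    (Matrix.of fun i j => MvPolynomial.pderiv j (f i)).det ≠ 0

/-- GENB: a nonzero polynomial is a unit on the generic fibres of a monic map. -/
def S_GENB : Prop :=
  ∀ (k F : Type) [Field k] [Field F] (φ : k →+* F) (τ : F) (v M : ℕ)
    (f : Fin v → MvPolynomial (Fin v) k) (Δ : MvPolynomial (Fin v) k), Mo M f → Δ ≠ 0 →
    (∀ p : Polynomial k, p.eval₂ φ τ = 0 → p = 0) →
    ∃ h : MvPolynomial (Fin v) k, h ≠ 0 ∧ ∀ c : Fin v → k, MvPolynomial.eval c h ≠ 0 →
      IsUnit (Ideal.Quotient.mk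
        (qq fun i => MvPolynomial.map φ (f i) - MvPolynomial.C (τ * φ (c i)))
        (MvPolynomial.map φ Δ))

/-- GENC: the Jacobian criterion. -/
def S_GENC : Prop :=
  ∀ (F : Type) [Field F] (v : ℕ) (f : Fin v → MvPolynomial (Fin v) F),
    IsUnit (Ideal.Quotient.mk (qq f) (Matrix.of fun i j => MvPolynomial.pderiv j (f i)).det) →
    IsReduced (MvPolynomial (Fin v) F ⧸ qq f)

/-- Points `c j` which avoid the zeros of `h` and are not contained in a hypersurface of degree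
less than `N`. -/
def Unis {k : Type} [Field k] {v s : ℕ} (N : ℕ) (c : Fin s → Fin v → k) : Prop :=
  ∀ G : MvPolynomial (Fin v) k, G.totalDegree < N → (∀ j, MvPolynomial.eval (c j) G = 0) → G = 0

/-- PTS. -/
def S_PTS : Prop :=
  ∀ (k : Type) [Field k] [Infinite k] (v N : ℕ) (h : MvPolynomial (Fin v) k), h ≠ 0 → 1 ≤ N →
    ∃ c : Fin (cn N v) → Fin v → k, (∀ j, MvPolynomial.eval (c j) h ≠ 0) ∧ Unis N c

/-! ## Families -/

/-- The ideal of the family `f = t c` over `k⟦t⟧`. -/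
noncomputable abbrev Ic {k : Type} [Field k] {v : ℕ} (f : Fin v → MvPolynomial (Fin v) k)
    (c : Fin v → k) : Ideal (MvPolynomial (Fin v) (PowerSeries k)) :=
  qq fun i => MvPolynomial.map (PowerSeries.C (R := k)) (f i) -
    MvPolynomial.C (PowerSeries.X * PowerSeries.C (c i))

/-- The constants in the algebraic closure of `k((t))`. -/
noncomputable abbrev cst (k : Type) [Field k] : k →+* LL k :=
  (algebraMap (PowerSeries k) (LL k)).comp PowerSeries.C

/-- The ideal of the fibre `f = t c` over the algebraic closure of `k((t))`. -/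
noncomputable abbrev Jc {k : Type} [Field k] {v : ℕ} (f : Fin v → MvPolynomial (Fin v) k)
    (c : Fin v → k) : Ideal (MvPolynomial (Fin v) (LL k)) :=
  qq fun i => MvPolynomial.map (cst k) (f i) -
    MvPolynomial.C (algebraMap (PowerSeries k) (LL k) PowerSeries.X * cst k (c i))

/-- FAMA. -/
def S_FAMA : Prop :=
  ∀ (k : Type) [Field k] (v M : ℕ) (f : Fin v → MvPolynomial (Fin v) k) (c : Fin v → k), Mo M f →
    Module.Finite (PowerSeries k) (MvPolynomial (Fin v) (PowerSeries k) ⧸ Ic f c) ∧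
    Module.Free (PowerSeries k) (MvPolynomial (Fin v) (PowerSeries k) ⧸ Ic f c) ∧
    Module.finrank (PowerSeries k) (MvPolynomial (Fin v) (PowerSeries k) ⧸ Ic f c) = M ^ v ∧
    (IsReduced (MvPolynomial (Fin v) (LL k) ⧸ Jc f c) → IsReduced
      (TensorProduct (PowerSeries k) (LL k) (MvPolynomial (Fin v) (PowerSeries k) ⧸ Ic f c)))

/-- FAMB. -/
def S_FAMB : Prop :=
  ∀ (k : Type) [Field k] (v M N s : ℕ) (f : Fin v → MvPolynomial (Fin v) k)
    (c : Fin s → Fin v → k), Mo M f → Unis N c →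
    ∀ G : MvPolynomial (Fin v) (PowerSeries k), (∀ j, G ∈ Ic f (c j)) →
      MvPolynomial.map (PowerSeries.constantCoeff (R := k)) G ∈ qq f ^ N

/-- FAMC. -/
def S_FAMC : Prop :=
  ∀ (k : Type) [Field k] (v M N s : ℕ) (f : Fin v → MvPolynomial (Fin v) k)
    (c : Fin s → Fin v → k),
    (∀ j, Module.Finite (PowerSeries k) (MvPolynomial (Fin v) (PowerSeries k) ⧸ Ic f (c j)) ∧
      Module.Free (PowerSeries k) (MvPolynomial (Fin v) (PowerSeries k) ⧸ Ic f (c j)) ∧
      Module.finrank (PowerSeries k) (MvPolynomial (Fin v) (PowerSeries k) ⧸ Ic f (c j)) =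
        M ^ v ∧
      IsReduced (TensorProduct (PowerSeries k) (LL k)
        (MvPolynomial (Fin v) (PowerSeries k) ⧸ Ic f (c j)))) →
    (∀ G : MvPolynomial (Fin v) (PowerSeries k), (∀ j, G ∈ Ic f (c j)) →
      MvPolynomial.map (PowerSeries.constantCoeff (R := k)) G ∈ qq f ^ N) →
    Fam k (MvPolynomial (Fin v) k ⧸ qq f ^ N) (s * M ^ v)

/-- CUT: open and closed subschemes of smoothable schemes are smoothable. -/
def S_CUT : Prop :=
  ∀ (k B : Type) [Field k] [CommRing B] [Algebra k B] [Module.Finite k B] (e : B), e * e = e →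
    Fam k B (Module.finrank k B) →
    Fam k (B ⧸ Ideal.span {1 - e}) (Module.finrank k (B ⧸ Ideal.span {1 - e}))

/-- COMP: the component of the origin. -/
def S_COMP : Prop :=
  ∀ (k : Type) [Field k] (v L0 : ℕ) (I : Ideal (MvPolynomial (Fin v) k))
    [Module.Finite k (MvPolynomial (Fin v) k ⧸ I)], ∃ L, L0 ≤ L ∧
    ∃ e : MvPolynomial (Fin v) k ⧸ I, e * e = e ∧
      Nonempty (((MvPolynomial (Fin v) k ⧸ I) ⧸ Ideal.span {1 - e}) ≃ₐ[k]
        (MvPolynomial (Fin v) k ⧸ (I ⊔ mm k v ^ L)))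

/-! ## Globalization -/

/-- The main property: the powers of `J` lie in smoothable schemes of degree `e * cn N v`, and this
is asymptotically sharp. -/
def PP {k : Type} [Field k] {v : ℕ} (J : Ideal (MvPolynomial (Fin v) k)) (e : ℕ) : Prop :=
  (∀ N, 1 ≤ N → Fam k (MvPolynomial (Fin v) k ⧸ J ^ N) (e * cn N v)) ∧
    ∃ N0 : ℕ, ∀ N, 1 ≤ N → e * cn N v ≤ dg (J ^ (N + N0))

/-- GLOB. -/
def S_GLOB : Prop :=
  ∀ (k : Type) [Field k] [IsAlgClosed k] (v : ℕ),
    (∀ (J : Ideal (MvPolynomial (Fin v) k)) (c : ℕ), mm k v ^ c ≤ J → J ≤ mm k v → ∃ e, PP J e) →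
    ∀ (J : Ideal (MvPolynomial (Fin v) k)) [Module.Finite k (MvPolynomial (Fin v) k ⧸ J)],
      ∃ e, PP J e

/-- POW. -/
def S_POW : Prop :=
  ∀ (k A : Type) [Field k] [CommRing A] [Algebra k A] (D n : ℕ), Fam k A D →
    Fam k (Pow k A n) (D ^ n)

end Pool.Agent.Y234.EM
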