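import Pool.Agent.Y234.EM.Fin3
import Pool.Agent.Y421.EM.Lech
import Pool.Agent.Y421.EM.Ari
import Pool.Agent.Y655.EM.Reda
import Pool.Agent.Y180.EM.Redb
import Pool.Agent.Y455.EM.Bas
import Pool.Agent.Y537.EM.QP
import Pool.Agent.Y188.EM.Mult
import Pool.Agent.Y388.EM.GENA
import Pool.Agent.Y388.EM.GENB
import Pool.Agent.Y689.EM.GenC
import Pool.Agent.Y387.EM.PTS
import Pool.Agent.Y350.EM.FamA
import Pool.Agent.Y350.EM.FamB
import Pool.Agent.Y655.EM.Famc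
import Pool.Agent.Y405.EM.Cut
import Pool.Agent.Y407.EM.Comp
import Pool.Agent.Y155.EM.Glob
import Pool.Agent.Y232.EM.Pow

/-!
# Project EM: all parts
-/

set_option autoImplicit false

namespace Pool.Agent.Y234.EM

theorem bas_ : S_BAS := Pool.Agent.Y455.EM.bas
theorem qp_ : S_QP := Pool.Agent.Y537.EM.QP.qp bas_
theorem lech_ : S_LECH := Pool.Agent.Y421.EM.lech

theorem main_of (hREDC : S_REDC) (k : Type) [Field k] [IsAlgClosed k] (v : ℕ)
    (J : Ideal (MvPolynomial (Fin v) k)) [Module.Finite k (MvPolynomial (Fin v) k ⧸ J)] :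
    ∃ e, PP J e ∧ e ≤ v.factorial * dg J :=
  main lech_ Pool.Agent.Y421.EM.ari (Pool.Agent.Y180.EM.redb (Pool.Agent.Y655.EM.reda lech_))
    hREDC qp_ (Pool.Agent.Y188.EM.mult bas_ qp_) Pool.Agent.Y388.EM.gena
    (Pool.Agent.Y388.EM.genb bas_) Pool.Agent.Y689.EM.genc Pool.Agent.Y387.EM.pts
    (Pool.Agent.Y350.EM.fama bas_) (Pool.Agent.Y350.EM.famb bas_ qp_) Pool.Agent.Y655.EM.famc
    Pool.Agent.Y405.EM.cut Pool.Agent.Y407.EM.comp (Pool.Agent.Y155.EM.glob lech_) k v J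

end Pool.Agent.Y234.EM
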