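import Pool.Agent.Y234.EM.Stm

/-!
# Project EM: assembly
-/

set_option autoImplicit false

namespace Pool.Agent.Y234.EM

open Filter Topology Pool.Agent.H826R3.SM

section basic

variable {k : Type} [Field k] {v : ℕ}

lemma surj_of_le {I J : Ideal (MvPolynomial (Fin v) k)} (h : I ≤ J) :
    ∃ φ : (MvPolynomial (Fin v) k ⧸ I) →ₐ[k] (MvPolynomial (Fin v) k ⧸ J),
      Function.Surjective φ :=
  ⟨Ideal.Quotient.factorₐ k h, Ideal.Quotient.factor_surjective h⟩

lemma dg_anti {I J : Ideal (MvPolynomial (Fin v) k)}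
    [Module.Finite k (MvPolynomial (Fin v) k ⧸ I)] (h : I ≤ J) : dg J ≤ dg I := by
  obtain ⟨φ, hφ⟩ := surj_of_le h
  exact LinearMap.finrank_le_finrank_of_surjective (f := φ.toLinearMap) hφ

lemma finite_of_le {I J : Ideal (MvPolynomial (Fin v) k)}
    [Module.Finite k (MvPolynomial (Fin v) k ⧸ I)] (h : I ≤ J) :
    Module.Finite k (MvPolynomial (Fin v) k ⧸ J) := by
  obtain ⟨φ, hφ⟩ := surj_of_le h
  exact Module.Finite.of_surjective φ.toLinearMap hφ

end basic

/-- bounded monotone sequences of naturals stabilize -/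
lemma stab (F : ℕ → ℕ) (B : ℕ) (h1 : ∀ a b, a ≤ b → F a ≤ F b) (h2 : ∀ a, F a ≤ B) :
    ∃ L1, ∀ L, L1 ≤ L → F L = F L1 := by
  classical
  have hb : ∃ m, ∀ a, F a ≤ m := ⟨B, h2⟩
  obtain ⟨L1, hL1⟩ : ∃ L1, ∀ a, F a ≤ F L1 := by
    by_contra hcon
    push Not at hcon
    have : ∀ n : ℕ, ∃ a, n ≤ F a := by
      intro n
      induction n with
      | zero => exact ⟨0, Nat.zero_le _⟩
      | succ n ih =>
        obtain ⟨a, ha⟩ := ih
        obtain ⟨b, hb⟩ := hcon a
        exact ⟨b, by omega⟩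
    obtain ⟨a, ha⟩ := this (B + 1)
    have := h2 a
    omega
  exact ⟨L1, fun L hL => le_antisymm (hL1 L) (h1 _ _ hL)⟩

theorem loc (hLECH : S_LECH) (hREDB : S_REDB) (hREDC : S_REDC) (hQP : S_QP)
    (hMULT : S_MULT) (hGENA : S_GENA) (hGENB : S_GENB) (hGENC : S_GENC) (hPTS : S_PTS)
    (hFAMA : S_FAMA) (hFAMB : S_FAMB) (hFAMC : S_FAMC) (hCUT : S_CUT) (hCOMP : S_COMP)
    (k : Type) [Field k] [IsAlgClosed k] (v : ℕ) (J : Ideal (MvPolynomial (Fin v) k)) (c : ℕ)
    (hc : mm k v ^ c ≤ J) (hJ : J ≤ mm k v) : ∃ e, PP J e := by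
  have hinf : Infinite k := IsAlgClosed.instInfinite
  obtain ⟨f, hfJ, N, hN⟩ := hREDB k v c J hc hJ
  obtain ⟨M, f', hMo, hM, hf'J, hred⟩ := hREDC k v c J f N hc hJ hfJ hN
  -- finiteness
  have hq : ∀ n, 1 ≤ n → Module.Finite k (MvPolynomial (Fin v) k ⧸ qq f' ^ n) := fun n hn =>
    (hQP.2 k v M n f' hMo hn).1
  have hq1 : Module.Finite k (MvPolynomial (Fin v) k ⧸ qq f') := by
    have := hq 1 le_rfl
    rwa [pow_one] at this
  have hqJ : qq f' ≤ J := by
    rw [Ideal.span_le]
    rintro _ ⟨i, rfl⟩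
    exact hf'J i
  have hJfin : Module.Finite k (MvPolynomial (Fin v) k ⧸ J) := finite_of_le hqJ
  -- stabilization
  obtain ⟨L1, hL1⟩ := stab (fun L => dg (qq f' ⊔ mm k v ^ L)) (dg (qq f')) (fun a b hab => by
      have := finite_of_le (I := qq f') (J := qq f' ⊔ mm k v ^ b) le_sup_left
      exact dg_anti (sup_le_sup_left (Ideal.pow_le_pow_right hab) _))
    (fun a => dg_anti le_sup_left)
  refine ⟨dg (qq f' ⊔ mm k v ^ L1), ?_, N, ?_⟩
  · intro n hn
    -- the generic fibre
    have hfam : Fam k (MvPolynomial (Fin v) k ⧸ qq f' ^ n)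
        (Module.finrank k (MvPolynomial (Fin v) k ⧸ qq f' ^ n)) := by
      have hdg := (hQP.2 k v M n f' hMo hn).2
      change Module.finrank k (MvPolynomial (Fin v) k ⧸ qq f' ^ n) = _ at hdg
      rw [hdg]
      have htr : ∀ p : Polynomial k, p.eval₂ (cst k)
          (algebraMap (PowerSeries k) (LL k) PowerSeries.X) = 0 → p = 0 := by
        intro p hp
        have h1 : p.eval₂ (cst k) (algebraMap (PowerSeries k) (LL k) PowerSeries.X) =
            algebraMap (PowerSeries k) (LL k) (p.eval₂ PowerSeries.C PowerSeries.X) := by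
          rw [Polynomial.hom_eval₂]
        rw [h1] at hp
        have hinj : Function.Injective (algebraMap (PowerSeries k) (LL k)) := by
          rw [IsScalarTower.algebraMap_eq (PowerSeries k) (LaurentSeries k) (LL k)]
          exact (algebraMap (LaurentSeries k) (LL k)).injective.comp
            (IsFractionRing.injective (PowerSeries k) (LaurentSeries k))
        have h2 : p.eval₂ PowerSeries.C PowerSeries.X = (0 : PowerSeries k) := by
          apply hinj
          rw [hp, map_zero]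
        have h3 : (p : PowerSeries k) = p.eval₂ PowerSeries.C PowerSeries.X :=
          Polynomial.eval₂_C_X_eq_coe.symm
        rw [← h3] at h2
        exact_mod_cast h2
      obtain ⟨h, hh0, hh⟩ := hGENB k (LL k) (cst k)
        (algebraMap (PowerSeries k) (LL k) PowerSeries.X) v M f'
        (Matrix.of fun i j => MvPolynomial.pderiv j (f' i)).det hMo (hGENA k v M f' hMo hM) htr
      obtain ⟨cc, hcc1, hcc2⟩ := hPTS k v n h hh0 hn
      refine hFAMC k v M n (cn n v) f' cc (fun j => ?_) (hFAMB k v M n (cn n v) f' cc hMo hcc2)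
      obtain ⟨g1, g2, g3, g4⟩ := hFAMA k v M f' (cc j) hMo
      refine ⟨g1, g2, g3, g4 (hGENC (LL k) v _ ?_)⟩
      have h5 := hh (cc j) (hcc1 j)
      have h6 : (Matrix.of fun i l => MvPolynomial.pderiv l
          (MvPolynomial.map (cst k) (f' i) -
            MvPolynomial.C (algebraMap (PowerSeries k) (LL k) PowerSeries.X * cst k (cc j i)))).det
          = MvPolynomial.map (cst k) (Matrix.of fun i l => MvPolynomial.pderiv l (f' i)).det := by
        rw [RingHom.map_det]
        congr 1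
        ext1 i l
        rw [RingHom.mapMatrix_apply, Matrix.map_apply, Matrix.of_apply, Matrix.of_apply, map_sub,
          MvPolynomial.pderiv_C, sub_zero, MvPolynomial.pderiv_map]
      rw [h6]
      exact h5
    obtain ⟨L0, hL0⟩ := hMULT k v M n f' hMo hn
    have hfin := hq n hn
    obtain ⟨L, hL, e', he', ⟨E⟩⟩ := hCOMP k v (max (max L0 L1) (c * n)) (qq f' ^ n)
    have hcut := hCUT k (MvPolynomial (Fin v) k ⧸ qq f' ^ n) e' he' hfam
    rw [E.toLinearEquiv.finrank_eq] at hcut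
    have hdg : dg (qq f' ^ n ⊔ mm k v ^ L) = dg (qq f' ⊔ mm k v ^ L1) * cn n v := by
      rw [hL0 L (by omega), hL1 L (by omega)]
    change Fam k _ (dg (qq f' ^ n ⊔ mm k v ^ L)) at hcut
    rw [hdg] at hcut
    have hle : qq f' ^ n ⊔ mm k v ^ L ≤ J ^ n := by
      refine sup_le (Ideal.pow_right_mono hqJ n) ?_
      calc mm k v ^ L ≤ mm k v ^ (c * n) := Ideal.pow_le_pow_right (by omega)
        _ = (mm k v ^ c) ^ n := pow_mul _ _ _
        _ ≤ J ^ n := Ideal.pow_right_mono hc n
    obtain ⟨φ, hφ⟩ := surj_of_le hle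
    exact (hcut.of_surjective E.toAlgHom E.surjective).of_surjective φ hφ
  · intro n hn
    obtain ⟨L0, hL0⟩ := hMULT k v M n f' hMo hn
    have h1 := hL0 (max L0 L1) (le_max_left _ _)
    rw [hL1 (max L0 L1) (le_max_right _ _)] at h1
    rw [← h1]
    have := (hLECH k v J (n + N)).1
    refine dg_anti ?_
    have h2 := hred (max L0 L1) n
    rwa [add_comm N n] at h2

/-- The local and global theorem. -/
theorem main (hLECH : S_LECH) (hARI : S_ARI) (hREDB : S_REDB) (hREDC : S_REDC)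
    (hQP : S_QP) (hMULT : S_MULT) (hGENA : S_GENA) (hGENB : S_GENB) (hGENC : S_GENC)
    (hPTS : S_PTS) (hFAMA : S_FAMA) (hFAMB : S_FAMB) (hFAMC : S_FAMC) (hCUT : S_CUT)
    (hCOMP : S_COMP) (hGLOB : S_GLOB)
    (k : Type) [Field k] [IsAlgClosed k] (v : ℕ) (J : Ideal (MvPolynomial (Fin v) k))
    [Module.Finite k (MvPolynomial (Fin v) k ⧸ J)] :
    ∃ e, PP J e ∧ e ≤ v.factorial * dg J := by
  obtain ⟨e, he⟩ := hGLOB k v (fun J c hc hJ => loc hLECH hREDB hREDC hQP hMULT hGENA hGENB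
    hGENC hPTS hFAMA hFAMB hFAMC hCUT hCOMP k v J c hc hJ) J
  refine ⟨e, he, ?_⟩
  obtain ⟨N0, hN0⟩ := he.2
  exact hARI v e (dg J) N0 fun n hn => (hN0 n hn).trans (hLECH k v J (n + N0)).2

lemma Fam.dim_le {k A : Type} [Field k] [CommRing A] [Algebra k A] {D : ℕ} (h : Fam k A D) :
    Module.finrank k A ≤ D := by
  obtain ⟨D', hD', hS⟩ := h.inSmoothable
  exact (finrank_le_of_inSmoothable hS).trans hD'

lemma add_defect_le {k A : Type} [Field k] [CommRing A] [Algebra k A] {D : ℕ} (h : Fam k A D) :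
    Module.finrank k A + defect k A ≤ D := by
  obtain ⟨D', hD', hS⟩ := h.inSmoothable
  have h1 := finrank_le_of_inSmoothable hS
  have h2 : defect k A ≤ D' - Module.finrank k A := by
    refine Nat.sInf_le ?_
    change InSmoothable k A (Module.finrank k A + (D' - Module.finrank k A))
    rwa [Nat.add_sub_cancel' h1]
  omega

end Pool.Agent.Y234.EM
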