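import Pool.Agent.Y234.EM.Asm

/-!
# Project EM: consequences
-/

set_option autoImplicit false

namespace Pool.Agent.Y234.EM

open Filter Topology Pool.Agent.H826R3.SM

section

variable (H : ∀ (k : Type) [Field k] [IsAlgClosed k] (v : ℕ) (J : Ideal (MvPolynomial (Fin v) k))
  [Module.Finite k (MvPolynomial (Fin v) k ⧸ J)], ∃ e, PP J e ∧ e ≤ v.factorial * dg J)

include H in
/-- every algebra generated by `v` elements lies in a smoothable one of degree `v! d` -/
theorem fixed_fam (k A : Type) [Field k] [IsAlgClosed k] [CommRing A] [Algebra k A]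
    [Module.Finite k A] (v : ℕ) (a : Fin v → A) (ha : Algebra.adjoin k (Set.range a) = ⊤) :
    Fam k A (v.factorial * Module.finrank k A) := by
  let ψ : MvPolynomial (Fin v) k →ₐ[k] A := MvPolynomial.aeval a
  have hψ : Function.Surjective ψ := by
    rw [← AlgHom.range_eq_top, ← ha, Algebra.adjoin_range_eq_range_aeval]
  let E : (MvPolynomial (Fin v) k ⧸ RingHom.ker ψ) ≃ₐ[k] A :=
    Ideal.quotientKerAlgEquivOfSurjective hψ
  have hfin : Module.Finite k (MvPolynomial (Fin v) k ⧸ RingHom.ker ψ) :=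
    Module.Finite.equiv E.symm.toLinearEquiv
  obtain ⟨e, he, hle⟩ := H k v (RingHom.ker ψ)
  have h1 := he.1 1 le_rfl
  have h2 : cn 1 v = 1 := by
    change (1 + v - 1).choose v = 1
    rw [Nat.add_sub_cancel_left, Nat.choose_self]
  rw [h2, mul_one, pow_one] at h1
  have h3 : dg (RingHom.ker ψ) = Module.finrank k A := E.toLinearEquiv.finrank_eq
  rw [h3] at hle
  exact (h1.of_surjective E.toAlgHom E.surjective).mono hle

variable (hPOW : S_POW)

include H hPOW in
theorem fixed_bound (k A : Type) [Field k] [IsAlgClosed k] [CommRing A] [Algebra k A]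
    [Module.Finite k A] (v : ℕ) (a : Fin v → A) (ha : Algebra.adjoin k (Set.range a) = ⊤)
    (n : ℕ) : Module.finrank k A ^ n + defect k (Pow k A n) ≤
      (v.factorial * Module.finrank k A) ^ n := by
  have h := add_defect_le (hPOW k A _ n (fixed_fam H k A v a ha))
  rwa [finrank_Pow] at h

/-- from an exponential bound to the limit of Q1 -/
theorem lim_of_bound {k A : Type} [Field k] [CommRing A] [Algebra k A] (B ε : ℝ) (hB : 0 ≤ B)
    (hd : B < (Module.finrank k A : ℝ) ^ (1 + ε))
    (h : ∀ n : ℕ, (defect k (Pow k A n) : ℝ) ≤ B ^ n) :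
    Tendsto (fun n : ℕ => (defect k (Pow k A n) : ℝ) /
      (Module.finrank k A : ℝ) ^ ((1 + ε) * (n : ℝ))) atTop (𝓝 0) := by
  set d : ℝ := (Module.finrank k A : ℝ) with hdd
  have hpos : 0 < d ^ (1 + ε) := lt_of_le_of_lt hB hd
  have hq : B / d ^ (1 + ε) < 1 := by
    rwa [div_lt_one hpos]
  have hq0 : 0 ≤ B / d ^ (1 + ε) := by positivity
  refine squeeze_zero (fun n => by positivity) (fun n => ?_)
    (tendsto_pow_atTop_nhds_zero_of_lt_one hq0 hq)
  rw [hdd, denom_eq', ← hdd, div_pow]
  exact div_le_div_of_nonneg_right (h n) (by positivity)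

include H hPOW in
theorem fixed_lim (k A : Type) [Field k] [IsAlgClosed k] [CommRing A] [Algebra k A]
    [Module.Finite k A] [Nontrivial A] (v : ℕ) (a : Fin v → A)
    (ha : Algebra.adjoin k (Set.range a) = ⊤) (ε : ℝ)
    (hε : (v.factorial : ℝ) < (Module.finrank k A : ℝ) ^ ε) :
    Tendsto (fun n : ℕ => (defect k (Pow k A n) : ℝ) /
      (Module.finrank k A : ℝ) ^ ((1 + ε) * (n : ℝ))) atTop (𝓝 0) := by
  have hd : 0 < Module.finrank k A := Module.finrank_pos
  have hd' : (0 : ℝ) < (Module.finrank k A : ℝ) := by exact_mod_cast hd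
  refine lim_of_bound ((v.factorial : ℝ) * (Module.finrank k A : ℝ)) ε (by positivity) ?_ ?_
  · rw [add_comm, Real.rpow_add hd', Real.rpow_one]
    exact mul_lt_mul_of_pos_right hε hd'
  · intro n
    have h := fixed_bound H hPOW k A v a ha n
    have h2 : defect k (Pow k A n) ≤ (v.factorial * Module.finrank k A) ^ n := by omega
    exact_mod_cast h2

end

end Pool.Agent.Y234.EM
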