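import Pool.Agent.Y234.EM.Fin

/-!
# Project EM: adic neighbourhoods
-/

set_option autoImplicit false

namespace Pool.Agent.Y234.EM

open Filter Topology Pool.Agent.H826R3.SM

section

variable (hLECH : S_LECH) (hLIM : S_LIM) (hPOW : S_POW)
  (H : ∀ (k : Type) [Field k] [IsAlgClosed k] (v : ℕ) (J : Ideal (MvPolynomial (Fin v) k))
    [Module.Finite k (MvPolynomial (Fin v) k ⧸ J)], ∃ e, PP J e ∧ e ≤ v.factorial * dg J)

include hLECH hLIM hPOW H in
theorem adic (k : Type) [Field k] [IsAlgClosed k] (v : ℕ) (J : Ideal (MvPolynomial (Fin v) k))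
    [Module.Finite k (MvPolynomial (Fin v) k ⧸ J)] (hJ : J ≠ ⊤) :
    ∃ e : ℕ, 1 ≤ e ∧ e ≤ v.factorial * dg J ∧
      (∀ N n : ℕ, 1 ≤ N → dg (J ^ N) ^ n +
        defect k (Pow k (MvPolynomial (Fin v) k ⧸ J ^ N) n) ≤ (e * cn N v) ^ n) ∧
      Tendsto (fun N : ℕ => (dg (J ^ N) : ℝ) / ((e : ℝ) * (cn N v : ℝ))) atTop (𝓝 1) ∧
      Tendsto (fun N : ℕ => (defect k (MvPolynomial (Fin v) k ⧸ J ^ N) : ℝ) /
        (dg (J ^ N) : ℝ)) atTop (𝓝 0) ∧
      ∀ η : ℝ, 0 < η → ∀ᶠ N : ℕ in atTop, ∀ n : ℕ, (dg (J ^ N) : ℝ) ^ n +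
        defect k (Pow k (MvPolynomial (Fin v) k ⧸ J ^ N) n) ≤ ((1 + η) * dg (J ^ N)) ^ n := by
  obtain ⟨e, ⟨hF, N0, hN0⟩, hle⟩ := H k v J
  have hfin : ∀ N, Module.Finite k (MvPolynomial (Fin v) k ⧸ J ^ N) := fun N => (hLECH k v J N).1
  have hD : ∀ N, 1 ≤ N → dg (J ^ N) ≤ e * cn N v := fun N hN => Fam.dim_le (hF N hN)
  have hpos : ∀ N, 1 ≤ N → 1 ≤ dg (J ^ N) := by
    intro N hN
    have hne : J ^ N ≠ ⊤ := by
      intro h
      apply hJ
      rw [eq_top_iff, ← h]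
      exact Ideal.pow_le_self (by omega)
    have : Nontrivial (MvPolynomial (Fin v) k ⧸ J ^ N) := Ideal.Quotient.nontrivial_iff.mpr hne
    exact Module.finrank_pos
  have hcn1 : cn 1 v = 1 := by
    change (1 + v - 1).choose v = 1
    rw [Nat.add_sub_cancel_left, Nat.choose_self]
  have he1 : 1 ≤ e := by
    have h1 := (hpos 1 le_rfl).trans (hD 1 le_rfl)
    rwa [hcn1, mul_one] at h1
  have hlim := hLIM v e N0 (fun N => dg (J ^ N)) he1 hN0 hD
  have hbound : ∀ N n : ℕ, 1 ≤ N → dg (J ^ N) ^ n +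
      defect k (Pow k (MvPolynomial (Fin v) k ⧸ J ^ N) n) ≤ (e * cn N v) ^ n := by
    intro N n hN
    have h := add_defect_le (hPOW k _ _ n (hF N hN))
    rwa [finrank_Pow] at h
  -- the inverse ratio
  have hinv : Tendsto (fun N : ℕ => ((e : ℝ) * (cn N v : ℝ)) / (dg (J ^ N) : ℝ)) atTop (𝓝 1) := by
    have h1 := hlim.inv₀ one_ne_zero
    rw [inv_one] at h1
    refine h1.congr fun N => ?_
    rw [inv_div]
  refine ⟨e, he1, hle, hbound, hlim, ?_, ?_⟩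
  · have h2 : Tendsto (fun N : ℕ => ((e : ℝ) * (cn N v : ℝ)) / (dg (J ^ N) : ℝ) - 1) atTop
        (𝓝 0) := by
      have := hinv.sub_const 1
      rwa [sub_self] at this
    refine squeeze_zero' (Eventually.of_forall fun N => by positivity) ?_ h2
    filter_upwards [eventually_ge_atTop 1] with N hN
    have h3 := add_defect_le (hF N hN)
    have h4 : (dg (J ^ N) : ℝ) + (defect k (MvPolynomial (Fin v) k ⧸ J ^ N) : ℝ) ≤
        (e : ℝ) * (cn N v : ℝ) := by exact_mod_cast h3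
    have h5 : (0 : ℝ) < (dg (J ^ N) : ℝ) := by exact_mod_cast hpos N hN
    rw [le_sub_iff_add_le, div_add_one h5.ne', div_le_div_iff_of_pos_right h5]
    linarith
  · intro η hη
    have h6 : ∀ᶠ N : ℕ in atTop, ((e : ℝ) * (cn N v : ℝ)) / (dg (J ^ N) : ℝ) < 1 + η :=
      hinv.eventually_lt_const (by linarith)
    filter_upwards [h6, eventually_ge_atTop 1] with N h7 hN n
    have h5 : (0 : ℝ) < (dg (J ^ N) : ℝ) := by exact_mod_cast hpos N hN
    rw [div_lt_iff₀ h5] at h7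
    have h8 : (dg (J ^ N) : ℝ) ^ n + (defect k (Pow k (MvPolynomial (Fin v) k ⧸ J ^ N) n) : ℝ) ≤
        ((e : ℝ) * (cn N v : ℝ)) ^ n := by exact_mod_cast hbound N n hN
    exact h8.trans (pow_le_pow_left₀ (by positivity) h7.le n)

end

end Pool.Agent.Y234.EM
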