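import Pool.Agent.Y234.EM.Fin2

/-!
# Project EM: filtrations
-/

set_option autoImplicit false

namespace Pool.Agent.Y234.EM

open Filter Topology Pool.Agent.H826R3.SM

/-- `v! * C(M + v - 1, v) ≤ (M + v) ^ v`. -/
lemma factorial_cn_le (M v : ℕ) (hM : 1 ≤ M) : v.factorial * cn M v ≤ (M + v) ^ v := by
  obtain ⟨m, rfl⟩ : ∃ m, M = m + 1 := ⟨M - 1, by omega⟩
  change v.factorial * (m + 1 + v - 1).choose v ≤ _
  have h1 : m + 1 + v - 1 = m + v := by omega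
  rw [h1, ← Nat.ascFactorial_eq_factorial_mul_choose]
  exact (Nat.ascFactorial_le_pow_add m v).trans (Nat.pow_le_pow_left (by omega) v)

section

variable (hPOW : S_POW)
  (H : ∀ (k : Type) [Field k] [IsAlgClosed k] (v : ℕ) (J : Ideal (MvPolynomial (Fin v) k))
    [Module.Finite k (MvPolynomial (Fin v) k ⧸ J)], ∃ e, PP J e ∧ e ≤ v.factorial * dg J)

variable (k : Type) [Field k] [IsAlgClosed k] (v : ℕ) (a : ℕ → Ideal (MvPolynomial (Fin v) k))
  (hfin : ∀ N, Module.Finite k (MvPolynomial (Fin v) k ⧸ a N)) (hanti : Antitone a)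
  (hmul : ∀ i j, a i * a j ≤ a (i + j))

omit [IsAlgClosed k] in
include hmul in
lemma pow_le_mul (p M : ℕ) (hM : 1 ≤ M) : a p ^ M ≤ a (p * M) := by
  induction M, hM using Nat.le_induction with
  | base => rw [pow_one, mul_one]
  | succ M _ ih =>
    rw [pow_succ, mul_add, mul_one]
    exact (Ideal.mul_mono_left ih).trans (hmul _ _)

include H hfin hanti hmul in
lemma filt_fam (p N : ℕ) (hp : 1 ≤ p) (hN : 1 ≤ N) :
    ∃ D : ℕ, Fam k (MvPolynomial (Fin v) k ⧸ a N) D ∧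
      (D : ℝ) ≤ (dg (a p) : ℝ) / (p : ℝ) ^ v * ((N : ℝ) + p * (1 + v)) ^ v := by
  have := hfin p
  obtain ⟨e, ⟨hF, -⟩, hle⟩ := H k v (a p)
  set M := N / p + 1 with hMdef
  have hM : 1 ≤ M := Nat.le_add_left 1 _
  have hNM : N ≤ p * M := by
    have := Nat.div_add_mod N p
    have h2 := Nat.mod_lt N (show 0 < p by omega)
    rw [hMdef, mul_add, mul_one]
    omega
  obtain ⟨φ, hφ⟩ := surj_of_le ((pow_le_mul k v a hmul p M hM).trans (hanti hNM))
  refine ⟨e * cn M v, (hF M hM).of_surjective φ hφ, ?_⟩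
  have h1 : e * cn M v ≤ dg (a p) * (M + v) ^ v := by
    calc e * cn M v ≤ v.factorial * dg (a p) * cn M v := Nat.mul_le_mul_right _ hle
      _ = dg (a p) * (v.factorial * cn M v) := by ring
      _ ≤ dg (a p) * (M + v) ^ v := Nat.mul_le_mul_left _ (factorial_cn_le M v hM)
  have hp0 : (0 : ℝ) < p := by exact_mod_cast hp
  have h2 : ((M : ℝ) + v) ≤ ((N : ℝ) + p * (1 + v)) / p := by
    rw [le_div_iff₀ hp0]
    have h3 : ((N / p : ℕ) : ℝ) * p ≤ N := by exact_mod_cast Nat.div_mul_le_self N p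
    rw [hMdef]
    push_cast
    nlinarith
  calc ((e * cn M v : ℕ) : ℝ) ≤ ((dg (a p) * (M + v) ^ v : ℕ) : ℝ) := by exact_mod_cast h1
    _ = (dg (a p) : ℝ) * ((M : ℝ) + v) ^ v := by push_cast; ring
    _ ≤ (dg (a p) : ℝ) * (((N : ℝ) + p * (1 + v)) / p) ^ v := by gcongr
    _ = (dg (a p) : ℝ) / (p : ℝ) ^ v * ((N : ℝ) + p * (1 + v)) ^ v := by
      rw [div_pow]
      ring

/-- the volume of a filtration -/
noncomputable def vol {k : Type} [Field k] {v : ℕ} (a : ℕ → Ideal (MvPolynomial (Fin v) k)) : ℝ :=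
  ⨅ N : ℕ, (dg (a (N + 1)) : ℝ) / ((N + 1 : ℕ) : ℝ) ^ v

omit [IsAlgClosed k] in
lemma vol_bdd : BddBelow (Set.range fun N : ℕ => (dg (a (N + 1)) : ℝ) / ((N + 1 : ℕ) : ℝ) ^ v) :=
  ⟨0, by rintro _ ⟨N, rfl⟩; positivity⟩

omit [IsAlgClosed k] in
lemma vol_nonneg : 0 ≤ vol a := le_ciInf fun N => by positivity

omit [IsAlgClosed k] in
lemma vol_le (N : ℕ) (hN : 1 ≤ N) : vol a * (N : ℝ) ^ v ≤ dg (a N) := by
  obtain ⟨m, rfl⟩ : ∃ m, N = m + 1 := ⟨N - 1, by omega⟩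
  have h1 : vol a ≤ (dg (a (m + 1)) : ℝ) / ((m + 1 : ℕ) : ℝ) ^ v := ciInf_le (vol_bdd k v a) m
  rwa [le_div_iff₀ (by positivity)] at h1

include H hfin hanti hmul in
/-- the main estimate -/
lemma filt_main (η : ℝ) (hη : 0 < η) : ∀ᶠ N : ℕ in atTop,
    ∃ D : ℕ, Fam k (MvPolynomial (Fin v) k ⧸ a N) D ∧ (D : ℝ) ≤ (vol a + η) * (N : ℝ) ^ v := by
  obtain ⟨m, hm⟩ : ∃ m : ℕ, (dg (a (m + 1)) : ℝ) / ((m + 1 : ℕ) : ℝ) ^ v < vol a + η :=
    exists_lt_of_ciInf_lt (lt_add_of_pos_right _ hη)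
  set p := m + 1 with hp
  set c : ℝ := (dg (a p) : ℝ) / (p : ℝ) ^ v with hc
  have hlim : Tendsto (fun N : ℕ => c * (1 + (p * (1 + v) : ℝ) / (N : ℝ)) ^ v) atTop (𝓝 c) := by
    have h1 : Tendsto (fun N : ℕ => (p * (1 + v) : ℝ) / (N : ℝ)) atTop (𝓝 0) :=
      tendsto_const_div_atTop_nhds_zero_nat _
    have h2 := ((h1.const_add 1).pow v).const_mul c
    rwa [add_zero, one_pow, mul_one] at h2
  filter_upwards [hlim.eventually_lt_const hm, eventually_ge_atTop 1] with N hN1 hN2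
  obtain ⟨D, hD1, hD2⟩ := filt_fam H k v a hfin hanti hmul p N (by omega) hN2
  refine ⟨D, hD1, hD2.trans ?_⟩
  have hN0 : (0 : ℝ) < N := by exact_mod_cast hN2
  have h3 : ((N : ℝ) + p * (1 + v)) ^ v = (1 + (p * (1 + v) : ℝ) / (N : ℝ)) ^ v * (N : ℝ) ^ v := by
    rw [← mul_pow]
    congr 1
    field_simp
  rw [← hc, h3, ← mul_assoc]
  exact mul_le_mul_of_nonneg_right hN1.le (by positivity)

include H hfin hanti hmul hPOW in
theorem filt : Tendsto (fun N : ℕ => (dg (a N) : ℝ) / (N : ℝ) ^ v) atTop (𝓝 (vol a)) ∧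
    (∀ η : ℝ, 0 < η → ∀ᶠ N : ℕ in atTop, ∀ n : ℕ, (dg (a N) : ℝ) ^ n +
      defect k (Pow k (MvPolynomial (Fin v) k ⧸ a N) n) ≤ ((vol a + η) * (N : ℝ) ^ v) ^ n) ∧
    (0 < vol a → Tendsto (fun N : ℕ => (defect k (MvPolynomial (Fin v) k ⧸ a N) : ℝ) /
        (dg (a N) : ℝ)) atTop (𝓝 0) ∧
      ∀ η : ℝ, 0 < η → ∀ᶠ N : ℕ in atTop, ∀ n : ℕ, (dg (a N) : ℝ) ^ n +
        defect k (Pow k (MvPolynomial (Fin v) k ⧸ a N) n) ≤ ((1 + η) * dg (a N)) ^ n) := by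
  have hb : ∀ η : ℝ, 0 < η → ∀ᶠ N : ℕ in atTop, ∀ n : ℕ, (dg (a N) : ℝ) ^ n +
      defect k (Pow k (MvPolynomial (Fin v) k ⧸ a N) n) ≤ ((vol a + η) * (N : ℝ) ^ v) ^ n := by
    intro η hη
    filter_upwards [filt_main H k v a hfin hanti hmul η hη] with N hN n
    obtain ⟨D, hD1, hD2⟩ := hN
    have := hfin N
    have h1 := add_defect_le (hPOW k _ D n hD1)
    rw [finrank_Pow] at h1
    calc (dg (a N) : ℝ) ^ n + defect k (Pow k (MvPolynomial (Fin v) k ⧸ a N) n) ≤ (D : ℝ) ^ n := by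
          exact_mod_cast h1
      _ ≤ ((vol a + η) * (N : ℝ) ^ v) ^ n := pow_le_pow_left₀ (Nat.cast_nonneg _) hD2 n
  have hb1 : ∀ η : ℝ, 0 < η → ∀ᶠ N : ℕ in atTop, (dg (a N) : ℝ) +
      defect k (MvPolynomial (Fin v) k ⧸ a N) ≤ (vol a + η) * (N : ℝ) ^ v := by
    intro η hη
    filter_upwards [filt_main H k v a hfin hanti hmul η hη] with N hN
    obtain ⟨D, hD1, hD2⟩ := hN
    refine le_trans ?_ hD2
    exact_mod_cast add_defect_le hD1
  refine ⟨?_, hb, fun hvol => ⟨?_, ?_⟩⟩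
  · rw [Metric.tendsto_atTop']
    intro η hη
    obtain ⟨N0, hN0⟩ := Filter.eventually_atTop.mp (hb1 (η / 2) (by linarith))
    refine ⟨max N0 1, fun N hN => ?_⟩
    have hN1 : 1 ≤ N := by omega
    have hN' : (0 : ℝ) < (N : ℝ) ^ v := by
      have : (0 : ℝ) < N := by exact_mod_cast hN1
      positivity
    have h1 := hN0 N (by omega)
    have h2 := vol_le k v a N hN1
    have h3 : (0 : ℝ) ≤ defect k (MvPolynomial (Fin v) k ⧸ a N) := Nat.cast_nonneg _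
    rw [Real.dist_eq, abs_lt]
    constructor
    · rw [lt_sub_iff_add_lt, lt_div_iff₀ hN']
      nlinarith
    · rw [sub_lt_iff_lt_add, div_lt_iff₀ hN']
      nlinarith
  · refine Metric.tendsto_atTop'.mpr ?_
    intro η hη
    obtain ⟨N0, hN0⟩ := Filter.eventually_atTop.mp (hb1 (η / 2 * vol a) (by positivity))
    refine ⟨max N0 1, fun N hN => ?_⟩
    have hN1 : 1 ≤ N := by omega
    have hN' : (0 : ℝ) < (N : ℝ) ^ v := by
      have : (0 : ℝ) < N := by exact_mod_cast hN1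
      positivity
    have h1 := hN0 N (by omega)
    have h2 := vol_le k v a N hN1
    have h4 : (0 : ℝ) < dg (a N) := lt_of_lt_of_le (by positivity) h2
    rw [Real.dist_eq, sub_zero, abs_of_nonneg (by positivity), div_lt_iff₀ h4]
    nlinarith
  · intro η hη
    filter_upwards [hb (η * vol a) (by positivity), eventually_ge_atTop 1] with N hN hN1 n
    refine (hN n).trans (pow_le_pow_left₀ (by positivity) ?_ n)
    have h2 := vol_le k v a N hN1
    nlinarith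

end

end Pool.Agent.Y234.EM
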